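import Mathlib
import Pool.Agent.J6H15.AC.GD4
import Pool.Agent.J6H15.AC.Curve
import Pool.Agent.J6H42.AC.P3
import Pool.Agent.J6H42.AC.P4
import Pool.Agent.J6H42.AC.Sign
import Pool.Agent.J6H59.AC.Pot
import Pool.Agent.J6H59.AC.GDex
import Pool.Agent.J6H17.AC.P2s

/-!
# MP_46692b_an, Q2: the support of a positive compactly supported measure with algebraic Cauchy
transform is a finite union of compact analytic arcs and isolated points
-/

set_option autoImplicit false

open MeasureTheory Polynomial Metric Set Filter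

namespace Pool.Agent.Results.MP_46692b_an.SupportArcsAndPoints

open Pool.Agent.J6H15.AC

theorem goodThm : GoodThm :=
  goodThm_of (Pool.Agent.J6H59.AC.existsGD (Pool.Agent.J6H59.AC.potThm actThm)
    Pool.Agent.J6H42.AC.signLem) curveClass

theorem localThm : LocalThm :=
  Pool.Agent.J6H42.AC.p4 actThm coneThm Pool.Agent.J6H17.AC.p2s goodThm

/-- **The support of a measure with algebraic Cauchy transform (affirmative answer to Q2).**
Let `μ` be a finite positive Borel measure on the plane with compact support, and let its Cauchy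
transform `z ↦ ∫ (z - ζ)⁻¹ dμ(ζ)` satisfy `P(z, C_μ(z)) = 0` for Lebesgue-almost every `z`, where
`P ∈ ℂ[z][w]` is a nonzero polynomial. Then the support of `μ` is the union of finitely many compact
analytic arcs (images of `[0, 1]` under injective real-analytic maps from open intervals containing
`[0, 1]` into `ℂ`) and of finitely many isolated points of the support. -/
theorem result :
    ∀ (μ : Measure ℂ) [IsFiniteMeasure μ], IsCompact μ.support → ∀ P : ℂ[X][X], P ≠ 0 →
      (∀ᵐ z : ℂ, P.evalEval z (∫ ζ, (z - ζ)⁻¹ ∂μ) = 0) →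
      ∃ (𝒜 : Set (Set ℂ)) (F : Set ℂ), 𝒜.Finite ∧ F.Finite ∧
        (∀ S ∈ 𝒜, ∃ (a b : ℝ) (γ : ℝ → ℂ), a < 0 ∧ 1 < b ∧ AnalyticOnNhd ℝ γ (Ioo a b) ∧
          InjOn γ (Ioo a b) ∧ S = γ '' Icc 0 1) ∧
        μ.support = ⋃₀ 𝒜 ∪ F ∧ ∀ z ∈ F, ∃ r > 0, μ.support ∩ ball z r = {z} :=
  Pool.Agent.J6H42.AC.p3 localThm

end Pool.Agent.Results.MP_46692b_an.SupportArcsAndPoints
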